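import Pool.Agent.K1H2.BI.Stm

/-! Project BI (helper2), pieces SECM and WALK: the random walk. -/

set_option autoImplicit false
set_option linter.unusedSectionVars false

namespace Pool.Agent.K1H28.BIW

open MeasureTheory ProbabilityTheory Filter Pool.Agent.K1H2.BI
open scoped ENNReal Topology BigOperators NNReal

universe u

variable {Ω : Type u} [MeasurableSpace Ω] {P : Measure Ω} [IsProbabilityMeasure P]
  {ν : PMF ℕ} {ins : ℕ → Ω → Inst}

/-- the increment -/
noncomputable def g (i : Inst) : ℝ := (i.1.length : ℝ) - 1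

theorem g_meas : Measurable g := by
  have h1 : Measurable fun l : List Dir => (l.length : ℝ) - 1 := measurable_from_top
  exact h1.comp measurable_fst

instance : IsProbabilityMeasure (volume.restrict (Set.Icc (0 : ℝ) 1)) := by
  refine ⟨?_⟩
  simp

theorem map_fst (hD : Drawn P ν ins) (j : ℕ) :
    P.map (fun ω => (ins j ω).1) = (kids ν).toMeasure := by
  have h1 : P.map (fun ω => (ins j ω).1) = (P.map (ins j)).map Prod.fst :=
    (Measure.map_map measurable_fst (hD.meas j)).symm
  rw [h1, hD.law j]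
  exact (measurePreserving_fst (μ := (kids ν).toMeasure)
    (ν := volume.restrict (Set.Icc (0 : ℝ) 1))).map_eq

theorem fst_meas (hD : Drawn P ν ins) (j : ℕ) : Measurable fun ω => (ins j ω).1 :=
  measurable_fst.comp (hD.meas j)

theorem len_meas (f : List Dir → ℝ) : Measurable f := measurable_from_top

theorem integral_len (hD : Drawn P ν ins) (j : ℕ) (f : List Dir → ℝ) :
    ∫ ω, f (ins j ω).1 ∂P = ∫ l, f l ∂(kids ν).toMeasure := by
  rw [← map_fst hD j, integral_map (fst_meas hD j).aemeasurable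
    (len_meas f).aestronglyMeasurable]

theorem memLp (hkids : S_KIDS) (hc : Crit ν) (hD : Drawn P ν ins) (j : ℕ) :
    MemLp (fun ω => g (ins j ω)) 2 P := by
  have h2 := (hkids ν hc).2.1
  have h3 : MemLp (fun l : List Dir => (l.length : ℝ)) 2 (kids ν).toMeasure :=
    (memLp_two_iff_integrable_sq (len_meas _).aestronglyMeasurable).2 h2
  have h4 : MemLp (fun l : List Dir => (l.length : ℝ) - 1) 2 (kids ν).toMeasure :=
    h3.sub (memLp_const 1)
  rw [← map_fst hD j] at h4
  exact (memLp_map_measure_iff (len_meas _).aestronglyMeasurable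
    (fst_meas hD j).aemeasurable).1 h4

theorem mean (hkids : S_KIDS) (hc : Crit ν) (hD : Drawn P ν ins) (j : ℕ) :
    ∫ ω, g (ins j ω) ∂P = 0 := by
  have h1 := (hkids ν hc).2.2.1
  have h2 := integral_len hD j fun l => (l.length : ℝ) - 1
  have h3 : Integrable (fun l : List Dir => (l.length : ℝ)) (kids ν).toMeasure :=
    ((memLp_two_iff_integrable_sq (len_meas _).aestronglyMeasurable).2
      (hkids ν hc).2.1).integrable (by norm_num)
  rw [integral_sub h3 (integrable_const _), h1] at h2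
  simpa [g] using h2

theorem vari (hkids : S_KIDS) (hc : Crit ν) (hD : Drawn P ν ins) (j : ℕ) :
    Var[fun ω => g (ins j ω); P] = var ν := by
  have h0 : AEMeasurable (fun ω => g (ins j ω)) P := (g_meas.comp (hD.meas j)).aemeasurable
  rw [variance_eq_integral h0, mean hkids hc hD j,
    ← (hkids ν hc).2.2.2.1, ← integral_len hD j fun l => ((l.length : ℝ) - 1) ^ 2]
  simp [g]

theorem indep (hD : Drawn P ν ins) (f : Inst → ℝ) (hf : Measurable f) :
    iIndepFun (fun j ω => f (ins j ω)) P :=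
  hD.indep.comp (fun _ => f) (fun _ => hf)

theorem ident (hD : Drawn P ν ins) (f : Inst → ℝ) (hf : Measurable f) (i j : ℕ) :
    IdentDistrib (fun ω => f (ins i ω)) (fun ω => f (ins j ω)) P P := by
  have h1 : IdentDistrib (ins i) (ins j) P P :=
    ⟨(hD.meas i).aemeasurable, (hD.meas j).aemeasurable, by rw [hD.law, hD.law]⟩
  exact h1.comp hf

/-- **SECM.** -/
theorem t_SECM (hkids : S_KIDS) : S_SECM.{u} := by
  intro Ω _ P _ ν ins hc hD n lam hlam
  have hmem : MemLp (fun ω => ∑ j ∈ Finset.range n, g (ins j ω)) 2 P :=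
    memLp_finsetSum _ fun j _ => memLp hkids hc hD j
  have hE : ∫ ω, (∑ j ∈ Finset.range n, g (ins j ω)) ∂P = 0 := by
    rw [integral_finsetSum _ fun j _ => (memLp hkids hc hD j).integrable (by norm_num)]
    exact Finset.sum_eq_zero fun j _ => mean hkids hc hD j
  have hV : Var[fun ω => ∑ j ∈ Finset.range n, g (ins j ω); P] = n * var ν := by
    have h1 := IndepFun.variance_sum (μ := P) (X := fun j ω => g (ins j ω))
      (s := Finset.range n) (fun j _ => memLp hkids hc hD j)
      (fun i _ j _ hij => (indep hD g g_meas).indepFun hij)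
    have h2 : (∑ j ∈ Finset.range n, fun ω => g (ins j ω)) =
        fun ω => ∑ j ∈ Finset.range n, g (ins j ω) := by
      funext ω
      rw [Finset.sum_apply]
    rw [h2] at h1
    rw [h1, Finset.sum_congr rfl fun j _ => vari hkids hc hD j, Finset.sum_const,
      Finset.card_range, nsmul_eq_mul]
  have h3 := meas_ge_le_variance_div_sq hmem hlam
  rw [hE, hV] at h3
  simp only [sub_zero] at h3
  have h4 : 0 ≤ n * var ν / lam ^ 2 :=
    div_nonneg (mul_nonneg (Nat.cast_nonneg _) (hkids ν hc).1.le) (by positivity)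
  exact (ENNReal.toReal_le_of_le_ofReal h4 h3)

/-- the Gaussian mass -/
noncomputable def q (v K : ℝ) : ℝ := (gaussianReal 0 v.toNNReal).real (Set.Ioi K)

theorem q_pos {v : ℝ} (hv : 0 < v) (K : ℝ) : 0 < q v K := by
  have h1 : v.toNNReal ≠ 0 := (Real.toNNReal_pos.2 hv).ne'
  unfold q
  rw [measureReal_def, ENNReal.toReal_pos_iff]
  refine ⟨?_, measure_lt_top _ _⟩
  rw [pos_iff_ne_zero]
  intro h2
  have h3 := gaussianReal_absolutelyContinuous' 0 h1 h2
  simp at h3

theorem clt_low (Z : ℕ → Ω → ℝ) (hmem : MemLp (Z 0) 2 P) (h0 : ∫ ω, Z 0 ω ∂P = 0)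
    (hi : iIndepFun Z P) (hid : ∀ i, IdentDistrib (Z i) (Z 0) P P) {v : ℝ}
    (hv : Var[Z 0; P] = v) (hvp : 0 < v) (K : ℝ) :
    ∀ᶠ r : ℕ in atTop, q v K / 2 ≤ P.real {ω | K * Real.sqrt r < ∑ k ∈ Finset.range r, Z k ω} := by
  have hY : HasLaw (id : ℝ → ℝ) (gaussianReal 0 Var[Z 0; P].toNNReal)
      (gaussianReal 0 Var[Z 0; P].toNNReal) := HasLaw.id
  have h1 := tendstoInDistribution_inv_sqrt_mul_sum_sub hY hmem hi hid
  have h2 := ProbabilityMeasure.le_liminf_measure_open_of_tendsto h1.tendsto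
    (isOpen_Ioi (a := K))
  simp only [ProbabilityMeasure.coe_mk, Measure.map_id, hv, h0, mul_zero, sub_zero] at h2
  have h3 : ENNReal.ofReal (q v K / 2) < (gaussianReal 0 v.toNNReal) (Set.Ioi K) := by
    have h4 : (gaussianReal 0 v.toNNReal) (Set.Ioi K) = ENNReal.ofReal (q v K) := by
      rw [q, measureReal_def, ENNReal.ofReal_toReal (measure_ne_top _ _)]
    rw [h4]
    exact ENNReal.ofReal_lt_ofReal_iff (q_pos hvp K) |>.2 (half_lt_self (q_pos hvp K))
  have h5 := eventually_lt_of_lt_liminf (h3.trans_le h2)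
  filter_upwards [h5, eventually_ge_atTop 1] with r hr hr1
  have hrpos : 0 < Real.sqrt r := Real.sqrt_pos.2 (by exact_mod_cast hr1)
  have hm : AEMeasurable (fun ω => (Real.sqrt r)⁻¹ * ∑ k ∈ Finset.range r, Z k ω) P :=
    .const_mul (Finset.aemeasurable_fun_sum _ fun _ _ => (hid _).aemeasurable_fst) _
  have h6 : P.map (fun ω => (Real.sqrt r)⁻¹ * ∑ k ∈ Finset.range r, Z k ω) (Set.Ioi K) =
      P {ω | K * Real.sqrt r < ∑ k ∈ Finset.range r, Z k ω} := by
    rw [Measure.map_apply_of_aemeasurable hm measurableSet_Ioi]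
    congr 1
    ext ω
    simp only [Set.mem_preimage, Set.mem_Ioi, Set.mem_ofPred_eq]
    rw [inv_mul_eq_div, lt_div_iff₀ hrpos]
  rw [h6] at hr
  rw [measureReal_def]
  exact (ENNReal.ofReal_le_iff_le_toReal (measure_ne_top _ _)).1 hr.le

theorem past_le (hD : Drawn P ν ins) (n : ℕ) :
    past ins n ≤ (inferInstance : MeasurableSpace Ω) :=
  iSup₂_le fun j _ => (hD.meas j).comap_le

theorem sum_meas (f : Inst → ℝ) (hf : Measurable f) (S : Finset ℕ) (k : ℕ → ℕ) :
    Measurable[⨆ j ∈ {j | ∃ i ∈ S, k i = j}, MeasurableSpace.comap (ins j) inferInstance]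
      fun ω => ∑ i ∈ S, f (ins (k i) ω) := by
  refine Finset.measurable_fun_sum S fun i hi => ?_
  have h1 : Measurable[MeasurableSpace.comap (ins (k i)) inferInstance]
      fun ω => f (ins (k i) ω) :=
    hf.comp (comap_measurable (ins (k i)))
  refine h1.mono ?_ le_rfl
  exact le_iSup₂_of_le (f := fun j _ => MeasurableSpace.comap (ins j) inferInstance) (k i)
    (⟨i, hi, rfl⟩ : k i ∈ {j | ∃ i ∈ S, k i = j}) le_rfl

theorem indep_shift (hD : Drawn P ν ins) (f : Inst → ℝ) (hf : Measurable f) (m r : ℕ)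
    (H : Set Ω) (hH : MeasurableSet[past ins m] H) (B : Set ℝ) (hB : MeasurableSet B) :
    P.real (H ∩ {ω | ∑ k ∈ Finset.range r, f (ins (m + k) ω) ∈ B}) =
      P.real H * P.real {ω | ∑ k ∈ Finset.range r, f (ins (m + k) ω) ∈ B} := by
  have h1 : iIndep (fun j => MeasurableSpace.comap (ins j) inferInstance) P := hD.indep
  have h2 := indep_iSup_of_disjoint (fun j => (hD.meas j).comap_le) h1
    (S := {j | j ∈ Finset.range m}) (T := {j | ∃ i ∈ Finset.range r, m + i = j}) (by
      rw [Set.disjoint_left]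
      rintro j hj ⟨i, _, hi⟩
      have h3 := Finset.mem_range.1 hj
      omega)
  have h3 : MeasurableSet[⨆ j ∈ {j | ∃ i ∈ Finset.range r, m + i = j},
      MeasurableSpace.comap (ins j) inferInstance]
      {ω | ∑ k ∈ Finset.range r, f (ins (m + k) ω) ∈ B} :=
    sum_meas (ins := ins) f hf (Finset.range r) (fun i => m + i) hB
  have h4 := (Indep_iff _ _ _).1 h2 H _ hH h3
  rw [measureReal_def, h4, ENNReal.toReal_mul]
  rfl

theorem walk (hD : Drawn P ν ins) (f : Inst → ℝ) (hf : Measurable f)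
    (hmem : ∀ j, MemLp (fun ω => f (ins j ω)) 2 P) (hmean : ∀ j, ∫ ω, f (ins j ω) ∂P = 0)
    {v : ℝ} (hv : ∀ j, Var[fun ω => f (ins j ω); P] = v) (hvp : 0 < v) (K : ℝ) (m : ℕ)
    (H : Set Ω) (hH : MeasurableSet[past ins m] H) :
    ∀ᶠ n : ℕ in atTop, q v (|K| + 2) / 4 * P.real H ≤
      P.real (H ∩ {ω | K * Real.sqrt n ≤ ∑ j ∈ Finset.range n, f (ins j ω)}) := by
  rcases eq_or_lt_of_le (measureReal_nonneg (μ := P) (s := H)) with hH0 | hHpos
  · refine Eventually.of_forall fun n => ?_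
    rw [← hH0, mul_zero]
    exact measureReal_nonneg
  have hq := q_pos hvp (|K| + 2)
  -- the central limit theorem for the shifted sequence
  have h1 := clt_low (fun k ω => f (ins (m + k) ω)) (hmem _) (hmean _)
    ((indep hD f hf).precomp (g := fun k => m + k) (fun a b h => by simpa using h))
    (fun i => ident hD f hf _ _) (hv _) hvp (|K| + 2)
  -- the first part of the walk
  have hmemW : MemLp (fun ω => ∑ j ∈ Finset.range m, f (ins j ω)) 2 P :=
    memLp_finsetSum _ fun j _ => hmem j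
  set V := Var[fun ω => ∑ j ∈ Finset.range m, f (ins j ω); P] with hV
  have h2 : ∀ᶠ n : ℕ in atTop, P.real {ω | Real.sqrt n ≤ |∑ j ∈ Finset.range m, f (ins j ω)|} ≤
      q v (|K| + 2) / 4 * P.real H := by
    have h3 : Tendsto (fun n : ℕ => V / (n : ℝ)) atTop (𝓝 0) :=
      tendsto_const_div_atTop_nhds_zero_nat V
    filter_upwards [h3.eventually_le_const (show 0 < q v (|K| + 2) / 4 * P.real H by positivity),
      eventually_ge_atTop 1] with n hn hn1
    have hnpos : 0 < Real.sqrt n := Real.sqrt_pos.2 (by exact_mod_cast hn1)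
    have h4 := meas_ge_le_variance_div_sq hmemW hnpos
    have h5 : ∫ ω, (∑ j ∈ Finset.range m, f (ins j ω)) ∂P = 0 := by
      rw [integral_finsetSum _ fun j _ => (hmem j).integrable (by norm_num)]
      exact Finset.sum_eq_zero fun j _ => hmean j
    rw [h5, Real.sq_sqrt (Nat.cast_nonneg n), ← hV] at h4
    simp only [sub_zero] at h4
    have h6 : 0 ≤ V / n := div_nonneg (variance_nonneg _ _) (Nat.cast_nonneg n)
    exact (ENNReal.toReal_le_of_le_ofReal h6 h4).trans hn
  have h7 : ∀ᶠ r : ℕ in atTop, (|K| + 1) * Real.sqrt m ≤ Real.sqrt r :=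
    (Real.tendsto_sqrt_atTop.comp tendsto_natCast_atTop_atTop).eventually_ge_atTop _
  filter_upwards [(tendsto_sub_atTop_nat m).eventually h1, h2,
    (tendsto_sub_atTop_nat m).eventually h7, eventually_ge_atTop m] with n hn1 hn2 hn3 hn4
  obtain ⟨r, rfl⟩ : ∃ r, n = m + r := ⟨n - m, by omega⟩
  rw [show m + r - m = r by omega] at hn1 hn3
  have h8 := indep_shift hD f hf m r H hH (Set.Ioi ((|K| + 2) * Real.sqrt r)) measurableSet_Ioi
  simp only [Set.mem_Ioi] at h8
  have h9 : H ∩ {ω | (|K| + 2) * Real.sqrt r < ∑ k ∈ Finset.range r, f (ins (m + k) ω)} ⊆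
      (H ∩ {ω | K * Real.sqrt (m + r : ℕ) ≤ ∑ j ∈ Finset.range (m + r), f (ins j ω)}) ∪
      {ω | Real.sqrt (m + r : ℕ) ≤ |∑ j ∈ Finset.range m, f (ins j ω)|} := by
    rintro ω ⟨hω1, hω2⟩
    rw [Set.mem_union]
    by_cases hω3 : Real.sqrt (m + r : ℕ) ≤ |∑ j ∈ Finset.range m, f (ins j ω)|
    · exact Or.inr hω3
    · refine Or.inl ⟨hω1, ?_⟩
      rw [not_le] at hω3
      simp only [Set.mem_ofPred_eq] at hω2 ⊢
      rw [Finset.sum_range_add]
      have h10 : Real.sqrt (m + r : ℕ) ≤ Real.sqrt m + Real.sqrt r := by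
        push_cast
        rw [Real.sqrt_le_left (by positivity)]
        nlinarith [Real.sq_sqrt (Nat.cast_nonneg (α := ℝ) m), Real.sq_sqrt (Nat.cast_nonneg (α := ℝ) r),
          mul_nonneg (Real.sqrt_nonneg (m : ℝ)) (Real.sqrt_nonneg (r : ℝ))]
      have h11 := (abs_lt.1 hω3).1
      have h12 : K * Real.sqrt (m + r : ℕ) ≤ |K| * Real.sqrt (m + r : ℕ) :=
        mul_le_mul_of_nonneg_right (le_abs_self K) (Real.sqrt_nonneg _)
      have h13 : (|K| + 1) * Real.sqrt (m + r : ℕ) ≤ (|K| + 1) * (Real.sqrt m + Real.sqrt r) :=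
        mul_le_mul_of_nonneg_left h10 (by positivity)
      nlinarith
  have h14 := (measureReal_mono (μ := P) h9).trans (measureReal_union_le _ _)
  rw [h8] at h14
  have h15 : P.real H * (q v (|K| + 2) / 2) ≤ P.real H *
      P.real {ω | (|K| + 2) * Real.sqrt r < ∑ k ∈ Finset.range r, f (ins (m + k) ω)} :=
    mul_le_mul_of_nonneg_left hn1 hHpos.le
  linarith

/-- **WALK.** -/
theorem t_WALK (hkids : S_KIDS) (hlevy : S_LEVY.{u}) : S_WALK.{u} := by
  intro Ω _ P _ ν ins hc hD
  have hvp := (hkids ν hc).1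
  have hneg : Measurable fun i => -g i := g_meas.neg
  have hup := fun K m H hH => walk hD g g_meas (memLp hkids hc hD) (mean hkids hc hD)
    (vari hkids hc hD) hvp K m H hH
  have hdown := fun K m H hH => walk hD (fun i => -g i) hneg
    (fun j => (memLp hkids hc hD j).neg)
    (fun j => by rw [integral_neg, mean hkids hc hD j, neg_zero])
    (v := var ν) (fun j => by
      have h1 : Var[-(fun ω => g (ins j ω)); P] = Var[fun ω => g (ins j ω); P] := variance_neg
      rw [vari hkids hc hD j] at h1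
      exact h1) hvp K m H hH
  have h3 : ∀ K : ℝ, ∃ p : ℝ, 0 < p ∧ ∀ (m : ℕ) (H : Set Ω), MeasurableSet[past ins m] H →
    ∀ᶠ n : ℕ in atTop, p * P.real H ≤
      P.real (H ∩ {ω | ∑ j ∈ Finset.range n, (((ins j ω).1.length : ℝ) - 1) ≤
        -K * Real.sqrt n}) := by
    intro K
    refine ⟨_, div_pos (q_pos hvp (|K| + 2)) four_pos, fun m H hH => ?_⟩
    filter_upwards [hdown K m H hH] with n hn
    have h4 : {ω | K * Real.sqrt n ≤ ∑ j ∈ Finset.range n, -g (ins j ω)} =
        {ω | ∑ j ∈ Finset.range n, (((ins j ω).1.length : ℝ) - 1) ≤ -K * Real.sqrt n} := by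
      ext ω
      simp only [Set.mem_ofPred_eq, Finset.sum_neg_distrib, g]
      constructor <;> intro h <;> linarith
    rw [h4] at hn
    exact hn
  refine ⟨?_, ?_, h3⟩
  · -- from the events infinitely often
    have h5 : ∀ k : ℕ, ∀ᵐ ω ∂P, ∃ᶠ n : ℕ in atTop,
        ∑ j ∈ Finset.range n, (((ins j ω).1.length : ℝ) - 1) ≤ -(k : ℝ) * Real.sqrt n := by
      intro k
      obtain ⟨p, hp, hp1⟩ := h3 k
      refine hlevy Ω P ν ins hD
        (fun n => {ω | ∑ j ∈ Finset.range n, (((ins j ω).1.length : ℝ) - 1) ≤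
          -(k : ℝ) * Real.sqrt n}) ?_ p hp hp1
      intro t
      have h6 := sum_meas (ins := ins) g g_meas (Finset.range t) (fun i => i)
        (measurableSet_Iic (a := -(k : ℝ) * Real.sqrt t))
      refine MeasurableSpace.le_def.1 ?_ _ h6
      refine iSup₂_le fun j hj => ?_
      obtain ⟨i, _, rfl⟩ := hj
      refine le_iSup_of_le (i + 1) ?_
      exact le_iSup₂_of_le (f := fun j _ => MeasurableSpace.comap (ins j) inferInstance) i
        (Finset.mem_range.2 (Nat.lt_succ_self i)) le_rfl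
    filter_upwards [ae_all_iff.2 h5] with ω hω K
    obtain ⟨k, hk⟩ := exists_nat_ge K
    refine (hω k).mono fun n hn => hn.trans ?_
    exact mul_le_mul_of_nonneg_right (neg_le_neg hk) (Real.sqrt_nonneg _)
  · intro K
    refine ⟨_, div_pos (q_pos hvp (|K| + 2)) four_pos, fun m H hH => ?_⟩
    exact hup K m H hH

end Pool.Agent.K1H28.BIW
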